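import Pool.Agent.J4H12.PZ.Stm

set_option autoImplicit false

open MeasureTheory Set Filter Topology Metric
open scoped Pointwise RealInnerProductSpace ENNReal

namespace Pool.Agent.J4H28.PZ

open Pool.Agent.H638.IB
open Pool.Agent.J4H12.PZ

/-- bound for homogeneous functions, continuous off `0` -/
theorem bd_of_hom {n : ℕ} (f : E n → ℝ) (k : ℕ) (hc : ContinuousOn f {0}ᶜ)
    (hh : ∀ c : ℝ, 0 < c → ∀ x, x ≠ 0 → f (c • x) = c ^ k * f x) :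
    ∃ C : ℝ, 0 ≤ C ∧ ∀ x, x ≠ 0 → |f x| ≤ C * ‖x‖ ^ k := by
  have hs : sphere (0 : E n) 1 ⊆ {0}ᶜ := by
    intro x hx
    rw [mem_sphere_zero_iff_norm] at hx
    intro h0
    rw [mem_singleton_iff] at h0
    rw [h0, norm_zero] at hx
    exact zero_ne_one hx
  obtain ⟨C, hC⟩ := (isCompact_sphere (0 : E n) 1).exists_bound_of_continuousOn (hc.mono hs)
  refine ⟨max C 0, le_max_right _ _, fun x hx => ?_⟩
  have hx0 : 0 < ‖x‖ := norm_pos_iff.2 hx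
  have hu : ‖(‖x‖⁻¹ • x)‖ = 1 := by
    rw [norm_smul, norm_inv, norm_norm, inv_mul_cancel₀ hx0.ne']
  have hu0 : (‖x‖⁻¹ • x) ≠ 0 := by
    intro h
    rw [h, norm_zero] at hu
    exact zero_ne_one hu
  have h1 : x = ‖x‖ • (‖x‖⁻¹ • x) := by
    rw [smul_smul, mul_inv_cancel₀ hx0.ne', one_smul]
  have h2 := hC (‖x‖⁻¹ • x) (mem_sphere_zero_iff_norm.2 hu)
  have h3 := hh ‖x‖ hx0 _ hu0
  rw [← h1] at h3
  rw [h3, abs_mul, abs_of_nonneg (by positivity), mul_comm]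
  rw [Real.norm_eq_abs] at h2
  exact mul_le_mul_of_nonneg_right (h2.trans (le_max_left _ _)) (by positivity)

section
variable {n k : ℕ} (a : Fin k → E n) (m : ℕ)

/-- the sum of powers -/
noncomputable def Sm (x : E n) : ℝ := ∑ i, ⟪a i, x⟫ ^ (2 * m)

/-- its first derivative in the direction `e` -/
noncomputable def Sm1 (e x : E n) : ℝ := ∑ i, (2 * m : ℕ) * ⟪a i, x⟫ ^ (2 * m - 1) * ⟪a i, e⟫

/-- its second derivative in the direction `e` -/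
noncomputable def Sm2 (e x : E n) : ℝ :=
  ∑ i, (2 * m : ℕ) * ((2 * m - 1 : ℕ) * ⟪a i, x⟫ ^ (2 * m - 1 - 1) * ⟪a i, e⟫) * ⟪a i, e⟫

theorem Sm_nonneg (x : E n) : 0 ≤ Sm a m x :=
  Finset.sum_nonneg fun i _ => by rw [pow_mul]; positivity

theorem Sm_pos (ha : ∀ x, x ≠ 0 → ∃ i, ⟪a i, x⟫ ≠ 0) {x : E n} (hx : x ≠ 0) : 0 < Sm a m x := by
  obtain ⟨i, hi⟩ := ha x hx
  refine Finset.sum_pos' (fun j _ => by rw [pow_mul]; positivity) ⟨i, Finset.mem_univ _, ?_⟩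
  rw [pow_mul]
  positivity

theorem inner_deriv (v x e : E n) (s : ℝ) :
    HasDerivAt (fun τ : ℝ => (⟪v, x + τ • e⟫ : ℝ)) ⟪v, e⟫ s := by
  have h : (fun τ : ℝ => (⟪v, x + τ • e⟫ : ℝ)) = fun τ => ⟪v, x⟫ + τ * ⟪v, e⟫ := by
    funext τ
    rw [inner_add_right, inner_smul_right]
  rw [h]
  have h1 := ((hasDerivAt_id s).mul_const (⟪v, e⟫ : ℝ)).const_add (⟪v, x⟫ : ℝ)
  simpa using h1

theorem Sm_deriv (e x : E n) (s : ℝ) :
    HasDerivAt (fun τ : ℝ => Sm a m (x + τ • e)) (Sm1 a m e (x + s • e)) s := by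
  unfold Sm Sm1
  refine HasDerivAt.fun_sum fun i _ => ?_
  exact (inner_deriv (a i) x e s).pow (2 * m)

theorem Sm1_deriv (e x : E n) (s : ℝ) :
    HasDerivAt (fun τ : ℝ => Sm1 a m e (x + τ • e)) (Sm2 a m e (x + s • e)) s := by
  unfold Sm1 Sm2
  refine HasDerivAt.fun_sum fun i _ => ?_
  exact (((inner_deriv (a i) x e s).pow (2 * m - 1)).const_mul _).mul_const _

theorem Sm_cont : Continuous (Sm a m) := by
  unfold Sm
  fun_prop

theorem Sm1_cont (e : E n) : Continuous (Sm1 a m e) := by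
  unfold Sm1
  fun_prop

theorem Sm2_cont (e : E n) : Continuous (Sm2 a m e) := by
  unfold Sm2
  fun_prop

theorem norm_deriv (x e : E n) (s : ℝ) :
    HasDerivAt (fun τ : ℝ => ‖x + τ • e‖ ^ 2) (2 * ⟪x + s • e, e⟫) s := by
  have h : (fun τ : ℝ => ‖x + τ • e‖ ^ 2) =
      fun τ => ‖x‖ ^ 2 + τ * (2 * ⟪x, e⟫) + τ ^ 2 * ‖e‖ ^ 2 := by
    funext τ
    rw [norm_add_sq_real, inner_smul_right, norm_smul, mul_pow, Real.norm_eq_abs, sq_abs]
    ring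
  rw [h]
  have h1 := (((hasDerivAt_id s).mul_const (2 * ⟪x, e⟫ : ℝ)).const_add (‖x‖ ^ 2)).add
    (((hasDerivAt_id s).pow 2).mul_const (‖e‖ ^ 2))
  have h2 : (2 * ⟪x + s • e, e⟫ : ℝ) = 1 * (2 * ⟪x, e⟫) + (2 : ℕ) * (id s) ^ (2 - 1) * 1 * ‖e‖ ^ 2 := by
    rw [inner_add_left, inner_smul_left, real_inner_self_eq_norm_sq]
    simp
    ring
  rw [h2]
  exact h1

theorem Sm_smul (c : ℝ) (x : E n) : Sm a m (c • x) = (c ^ 2) ^ m * Sm a m x := by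
  unfold Sm
  rw [Finset.mul_sum]
  refine Finset.sum_congr rfl fun i _ => ?_
  rw [inner_smul_right, mul_pow, pow_mul c]

end

section
variable {L k : ℕ} (a : Fin k → E (L + 3)) (m : ℕ) (δ : ℝ)

/-- first derivative -/
noncomputable def F1 (x : E (L + 3)) : ℝ :=
  Sm1 a m (e0 L) x * (m : ℝ)⁻¹ * Sm a m x ^ ((m : ℝ)⁻¹ - 1) + δ * (2 * ⟪x, e0 L⟫)

/-- second derivative -/
noncomputable def F2 (x : E (L + 3)) : ℝ :=
  Sm2 a m (e0 L) x * (m : ℝ)⁻¹ * Sm a m x ^ ((m : ℝ)⁻¹ - 1) +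
    Sm1 a m (e0 L) x * (m : ℝ)⁻¹ *
      (Sm1 a m (e0 L) x * ((m : ℝ)⁻¹ - 1) * Sm a m x ^ ((m : ℝ)⁻¹ - 1 - 1)) +
    δ * (2 * ⟪e0 L, e0 L⟫)

theorem Nf_eq (x : E (L + 3)) : Nf a m δ x = Sm a m x ^ ((m : ℝ)⁻¹) + δ * ‖x‖ ^ 2 := rfl

theorem Nf_hom (hm : 1 ≤ m) (c : ℝ) (x : E (L + 3)) : Nf a m δ (c • x) = c ^ 2 * Nf a m δ x := by
  rw [Nf_eq, Nf_eq, Sm_smul, Real.mul_rpow (by positivity) (Sm_nonneg a m x),
    Real.pow_rpow_inv_natCast (by positivity) (by omega), norm_smul, mul_pow, Real.norm_eq_abs,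
    sq_abs]
  ring

theorem Nf_deriv (ha : ∀ x, x ≠ 0 → ∃ i, ⟪a i, x⟫ ≠ 0) (x : E (L + 3)) (hx : x ≠ 0) :
    HasDerivAt (fun τ : ℝ => Nf a m δ (x + τ • e0 L)) (F1 a m δ x) 0 := by
  have h0 : x + (0 : ℝ) • e0 L = x := by rw [zero_smul, add_zero]
  have h1 := Sm_deriv a m (e0 L) x 0
  have hp : Sm a m (x + (0 : ℝ) • e0 L) ≠ 0 := by
    rw [h0]
    exact (Sm_pos a m ha hx).ne'
  have h2 := (h1.rpow_const (p := (m : ℝ)⁻¹) (Or.inl hp)).add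
    ((norm_deriv x (e0 L) 0).const_mul δ)
  rw [h0] at h2
  exact h2

theorem F1_deriv (ha : ∀ x, x ≠ 0 → ∃ i, ⟪a i, x⟫ ≠ 0) (x : E (L + 3)) (hx : x ≠ 0) :
    HasDerivAt (fun τ : ℝ => F1 a m δ (x + τ • e0 L)) (F2 a m δ x) 0 := by
  have h0 : x + (0 : ℝ) • e0 L = x := by rw [zero_smul, add_zero]
  have h1 := Sm_deriv a m (e0 L) x 0
  have h1' := Sm1_deriv a m (e0 L) x 0
  have hp : Sm a m (x + (0 : ℝ) • e0 L) ≠ 0 := by
    rw [h0]
    exact (Sm_pos a m ha hx).ne'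
  have h2 := h1.rpow_const (p := (m : ℝ)⁻¹ - 1) (Or.inl hp)
  have h3 : HasDerivAt (fun τ : ℝ => (⟪x + τ • e0 L, e0 L⟫ : ℝ)) ⟪e0 L, e0 L⟫ 0 := by
    have h4 := inner_deriv (e0 L) x (e0 L) 0
    refine h4.congr_of_eventuallyEq (Eventually.of_forall fun τ => ?_)
    exact real_inner_comm _ _
  have h4 := ((h1'.mul_const ((m : ℝ)⁻¹)).mul h2).add ((h3.const_mul 2).const_mul δ)
  rw [h0] at h4
  exact h4

theorem F1_hom (hm : 1 ≤ m) (ha : ∀ x, x ≠ 0 → ∃ i, ⟪a i, x⟫ ≠ 0) (c : ℝ) (hc : 0 < c)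
    (x : E (L + 3)) (hx : x ≠ 0) : F1 a m δ (c • x) = c * F1 a m δ x := by
  have hcx : c • x ≠ 0 := smul_ne_zero hc.ne' hx
  have h1 := Nf_deriv a m δ ha x hx
  have h2 : HasDerivAt (fun τ : ℝ => Nf a m δ (c • x + (c * τ) • e0 L)) (F1 a m δ (c • x) * (c * 1)) 0 := by
    have h3 := Nf_deriv a m δ ha (c • x) hcx
    have h4 : HasDerivAt (fun τ : ℝ => c * τ) (c * 1) 0 := (hasDerivAt_id (0 : ℝ)).const_mul c
    exact HasDerivAt.comp (h₂ := fun τ : ℝ => Nf a m δ (c • x + τ • e0 L)) (0 : ℝ)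
      (by rw [mul_zero]; exact h3) h4
  have h5 : (fun τ : ℝ => Nf a m δ (c • x + (c * τ) • e0 L)) =
      fun τ : ℝ => c ^ 2 * Nf a m δ (x + τ • e0 L) := by
    funext τ
    rw [← Nf_hom a m δ hm, smul_add, smul_smul]
  rw [h5] at h2
  have h6 := h2.unique (h1.const_mul (c ^ 2))
  have h7 : c * F1 a m δ (c • x) = c * (c * F1 a m δ x) := by linarith [h6]
  exact mul_left_cancel₀ hc.ne' h7

theorem F2_hom (hm : 1 ≤ m) (ha : ∀ x, x ≠ 0 → ∃ i, ⟪a i, x⟫ ≠ 0) (c : ℝ) (hc : 0 < c)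
    (x : E (L + 3)) (hx : x ≠ 0) : F2 a m δ (c • x) = F2 a m δ x := by
  have hcx : c • x ≠ 0 := smul_ne_zero hc.ne' hx
  have h1 := F1_deriv a m δ ha x hx
  have h2 : HasDerivAt (fun τ : ℝ => F1 a m δ (c • x + (c * τ) • e0 L)) (F2 a m δ (c • x) * (c * 1)) 0 := by
    have h3 := F1_deriv a m δ ha (c • x) hcx
    have h4 : HasDerivAt (fun τ : ℝ => c * τ) (c * 1) 0 := (hasDerivAt_id (0 : ℝ)).const_mul c
    exact HasDerivAt.comp (h₂ := fun τ : ℝ => F1 a m δ (c • x + τ • e0 L)) (0 : ℝ)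
      (by rw [mul_zero]; exact h3) h4
  have hne : ∀ᶠ τ : ℝ in 𝓝 0, x + τ • e0 L ≠ 0 := by
    have h3 : Continuous (fun τ : ℝ => x + τ • e0 L) := by fun_prop
    refine h3.continuousAt.eventually_ne ?_
    rw [zero_smul, add_zero]
    exact hx
  have h5 : (fun τ : ℝ => c * F1 a m δ (x + τ • e0 L)) =ᶠ[𝓝 0]
      (fun τ : ℝ => F1 a m δ (c • x + (c * τ) • e0 L)) := by
    filter_upwards [hne] with τ hτ
    rw [← F1_hom a m δ hm ha c hc _ hτ, smul_add, smul_smul]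
  have h6 := (h2.congr_of_eventuallyEq h5).unique (h1.const_mul c)
  have h7 : c * F2 a m δ (c • x) = c * F2 a m δ x := by linarith [h6]
  exact mul_left_cancel₀ hc.ne' h7

theorem rp_cont (ha : ∀ x, x ≠ 0 → ∃ i, ⟪a i, x⟫ ≠ 0) (p : ℝ) :
    ContinuousOn (fun x : E (L + 3) => Sm a m x ^ p) {0}ᶜ := by
  refine (Sm_cont a m).continuousOn.rpow_const fun x hx => Or.inl ?_
  exact (Sm_pos a m ha hx).ne'

theorem F1_cont (ha : ∀ x, x ≠ 0 → ∃ i, ⟪a i, x⟫ ≠ 0) : ContinuousOn (F1 a m δ) ({0}ᶜ : Set (E (L + 3))) := by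
  unfold F1
  have h1 := rp_cont a m ha ((m : ℝ)⁻¹ - 1)
  have h2 := (Sm1_cont a m (e0 L)).continuousOn (s := ({0}ᶜ : Set (E (L + 3))))
  have h3 : ContinuousOn (fun x : E (L + 3) => δ * (2 * ⟪x, e0 L⟫)) {0}ᶜ := by fun_prop
  exact ((h2.mul continuousOn_const).mul h1).add h3

theorem F2_cont (ha : ∀ x, x ≠ 0 → ∃ i, ⟪a i, x⟫ ≠ 0) : ContinuousOn (F2 a m δ) ({0}ᶜ : Set (E (L + 3))) := by
  unfold F2
  have h1 := rp_cont a m ha ((m : ℝ)⁻¹ - 1)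
  have h1' := rp_cont a m ha ((m : ℝ)⁻¹ - 1 - 1)
  have h2 := (Sm1_cont a m (e0 L)).continuousOn (s := ({0}ᶜ : Set (E (L + 3))))
  have h2' := (Sm2_cont a m (e0 L)).continuousOn (s := ({0}ᶜ : Set (E (L + 3))))
  exact (((h2'.mul continuousOn_const).mul h1).add ((h2.mul continuousOn_const).mul
    ((h2.mul continuousOn_const).mul h1'))).add continuousOn_const

theorem Nf_cont : Continuous (Nf a m δ : E (L + 3) → ℝ) := by
  have h1 : Continuous (fun x : E (L + 3) => Sm a m x ^ ((m : ℝ)⁻¹)) :=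
    (Sm_cont a m).rpow_const fun x => Or.inr (by positivity)
  have h2 : Continuous (fun x : E (L + 3) => δ * ‖x‖ ^ 2) := by fun_prop
  exact h1.add h2

/-- the root of order `2 m` -/
noncomputable def Rt (x : E (L + 3)) : ℝ := (∑ i, |⟪a i, x⟫| ^ ((2 * m : ℕ) : ℝ)) ^ (1 / ((2 * m : ℕ) : ℝ))

theorem Rt_nonneg (x : E (L + 3)) : 0 ≤ Rt a m x := by
  unfold Rt
  positivity

theorem Rt_sq (hm : 1 ≤ m) (x : E (L + 3)) : Rt a m x ^ 2 = Sm a m x ^ ((m : ℝ)⁻¹) := by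
  have h1 : (∑ i, |⟪a i, x⟫| ^ ((2 * m : ℕ) : ℝ)) = Sm a m x := by
    unfold Sm
    refine Finset.sum_congr rfl fun i _ => ?_
    rw [Real.rpow_natCast, pow_mul, sq_abs, ← pow_mul]
  have hm0 : (m : ℝ) ≠ 0 := by positivity
  unfold Rt
  rw [h1, ← Real.rpow_natCast, ← Real.rpow_mul (Sm_nonneg a m x)]
  congr 1
  push_cast
  field_simp

theorem Rt_add (hm : 1 ≤ m) (x y : E (L + 3)) : Rt a m (x + y) ≤ Rt a m x + Rt a m y := by
  unfold Rt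
  have h := Real.Lp_add_le (Finset.univ : Finset (Fin k)) (fun i => (⟪a i, x⟫ : ℝ))
    (fun i => (⟪a i, y⟫ : ℝ)) (p := ((2 * m : ℕ) : ℝ)) (by exact_mod_cast (by omega : 1 ≤ 2 * m))
  refine le_trans (le_of_eq ?_) h
  congr 1
  refine Finset.sum_congr rfl fun i _ => ?_
  rw [inner_add_right]

theorem Rt_smul (hm : 1 ≤ m) (c : ℝ) (hc : 0 ≤ c) (x : E (L + 3)) : Rt a m (c • x) = c * Rt a m x := by
  have h1 : Rt a m (c • x) ^ 2 = (c * Rt a m x) ^ 2 := by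
    rw [Rt_sq a m hm, mul_pow, Rt_sq a m hm, Sm_smul, Real.mul_rpow (by positivity) (Sm_nonneg a m x),
      Real.pow_rpow_inv_natCast (by positivity) (by omega)]
  exact (pow_left_inj₀ (Rt_nonneg a m _) (mul_nonneg hc (Rt_nonneg a m _)) two_ne_zero).1 h1

theorem Nf_conv (hm : 1 ≤ m) : ConvexOn ℝ univ (fun x : E (L + 3) => Nf a m δ x - δ * ‖x‖ ^ 2) := by
  have h1 : (fun x : E (L + 3) => Nf a m δ x - δ * ‖x‖ ^ 2) = fun x => Rt a m x ^ 2 := by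
    funext x
    rw [Nf_eq, Rt_sq a m hm]
    ring
  rw [h1]
  refine ⟨convex_univ, fun x _ y _ s t hs ht hst => ?_⟩
  have h2 : Rt a m (s • x + t • y) ≤ s * Rt a m x + t * Rt a m y := by
    refine (Rt_add a m hm _ _).trans ?_
    rw [Rt_smul a m hm s hs, Rt_smul a m hm t ht]
  have h3 := Rt_nonneg a m (s • x + t • y)
  have h4 : Rt a m (s • x + t • y) ^ 2 ≤ (s * Rt a m x + t * Rt a m y) ^ 2 :=
    pow_le_pow_left₀ h3 h2 2
  refine h4.trans ?_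
  rw [smul_eq_mul, smul_eq_mul]
  have h5 : s * Rt a m x ^ 2 + t * Rt a m y ^ 2 - (s * Rt a m x + t * Rt a m y) ^ 2 =
      s * t * (Rt a m x - Rt a m y) ^ 2 := by
    have : t = 1 - s := by linarith
    subst this
    ring
  have h6 : 0 ≤ s * t * (Rt a m x - Rt a m y) ^ 2 := by positivity
  linarith

end

theorem t_NICE : S_NICE := by
  intro L k a m δ hm hδ ha
  have hN := Nf_hom a m δ hm
  obtain ⟨C0, hC0, h0⟩ := bd_of_hom (Nf a m δ : E (L + 3) → ℝ) 2 (Nf_cont a m δ).continuousOn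
    (fun c _ x _ => hN c x)
  obtain ⟨C1, hC1, h1⟩ := bd_of_hom (F1 a m δ : E (L + 3) → ℝ) 1 (F1_cont a m δ ha)
    (fun c hc x hx => by rw [pow_one]; exact F1_hom a m δ hm ha c hc x hx)
  obtain ⟨C2, hC2, h2⟩ := bd_of_hom (F2 a m δ : E (L + 3) → ℝ) 0 (F2_cont a m δ ha)
    (fun c hc x hx => by rw [pow_zero, one_mul]; exact F2_hom a m δ hm ha c hc x hx)
  refine ⟨F1 a m δ, F2 a m δ, C0 + C1 + C2, ?_⟩
  refine ⟨Nf_cont a m δ, hN, hδ, fun x => ?_, fun x => ?_, Nf_conv a m δ hm,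
    Nf_deriv a m δ ha, F1_deriv a m δ ha, fun x hx => ?_, fun x hx => ?_,
    F1_cont a m δ ha, F2_cont a m δ ha⟩
  · rw [Nf_eq]
    have := Real.rpow_nonneg (Sm_nonneg a m x) ((m : ℝ)⁻¹)
    linarith
  · by_cases hx : x = 0
    · have h3 := hN 0 x
      rw [zero_smul] at h3
      rw [hx, h3, norm_zero]
      simp
    · refine (le_abs_self _).trans ((h0 x hx).trans ?_)
      refine mul_le_mul_of_nonneg_right (by linarith) (by positivity)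
  · have h3 := h1 x hx
    rw [pow_one] at h3
    refine h3.trans (mul_le_mul_of_nonneg_right (by linarith) (by positivity))
  · have h3 := h2 x hx
    rw [pow_zero, mul_one] at h3
    linarith

end Pool.Agent.J4H28.PZ
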