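import Pool.Agent.J4H12.PZ.Stm

set_option autoImplicit false

open MeasureTheory Set Filter Topology Metric
open scoped Pointwise RealInnerProductSpace ENNReal

namespace Pool.Agent.J4H28.PZ

open Pool.Agent.H638.IB
open Pool.Agent.J4H12.PZ

/-- lower bound for the integral of the tent function -/
theorem tent_ge (M : Measure (ℝ × ℝ)) [IsFiniteMeasure M] (p t c : ℝ) (ht : 0 < t) (hc : 0 ≤ c)
    (S : Set (ℝ × ℝ)) (hS : MeasurableSet S) (h : ∀ y ∈ S, c ≤ t - |y.1 + p * y.2|) :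
    c * (M S).toReal ≤ ∫ y, max (t - |y.1 + p * y.2|) 0 ∂M := by
  have hm : Continuous (fun y : ℝ × ℝ => max (t - |y.1 + p * y.2|) 0) := by fun_prop
  have hint : Integrable (fun y : ℝ × ℝ => max (t - |y.1 + p * y.2|) 0) M := by
    refine Integrable.of_bound hm.aestronglyMeasurable t (Eventually.of_forall fun y => ?_)
    rw [Real.norm_eq_abs, abs_of_nonneg (le_max_right _ _)]
    refine max_le ?_ ht.le
    have := abs_nonneg (y.1 + p * y.2)
    linarith
  have h1 : ∫ y, S.indicator (fun _ => c) y ∂M = c * (M S).toReal := by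
    rw [integral_indicator hS, setIntegral_const, smul_eq_mul, mul_comm]
    rfl
  rw [← h1]
  refine integral_mono ((integrable_const c).indicator hS) hint fun y => ?_
  by_cases hy : y ∈ S
  · rw [indicator_of_mem hy]
    exact (h y hy).trans (le_max_left _ _)
  · rw [indicator_of_notMem hy]
    exact le_max_right _ _

theorem line_null (M : Measure (ℝ × ℝ)) [IsFiniteMeasure M] (hE : HypE M) (p : ℝ) (hp0 : p ≠ 0)
    (hp1 : p ≠ -1) : M {y | y.1 + p * y.2 = 0} = 0 := by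
  obtain ⟨C₀, δ₀, hδ₀, h⟩ := hE {p} isCompact_singleton
    (by rw [mem_singleton_iff]; exact fun h => hp0 h.symm)
    (by rw [mem_singleton_iff]; exact fun h => hp1 h.symm)
  have hS : MeasurableSet {y : ℝ × ℝ | y.1 + p * y.2 = 0} := by
    have : Continuous (fun y : ℝ × ℝ => y.1 + p * y.2) := by fun_prop
    exact (isClosed_singleton.preimage this).measurableSet
  have h1 : ∀ t : ℝ, 0 < t → t ≤ δ₀ → (M {y : ℝ × ℝ | y.1 + p * y.2 = 0}).toReal ≤ C₀ * t := by
    intro t ht ht1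
    have h2 := h p rfl t ht ht1
    have h3 := tent_ge M p t t ht ht.le _ hS (fun y hy => by
      rw [mem_setOf_eq] at hy
      rw [hy, abs_zero, sub_zero])
    have h4 := h3.trans h2
    have h5 : t * (M {y : ℝ × ℝ | y.1 + p * y.2 = 0}).toReal ≤ t * (C₀ * t) := by
      refine h4.trans (le_of_eq ?_)
      ring
    exact le_of_mul_le_mul_left h5 ht
  have h2 : (M {y : ℝ × ℝ | y.1 + p * y.2 = 0}).toReal ≤ 0 := by
    have h3 : Tendsto (fun t : ℝ => C₀ * t) (𝓝[>] 0) (𝓝 (C₀ * 0)) := by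
      refine (Continuous.tendsto ?_ 0).mono_left nhdsWithin_le_nhds
      fun_prop
    rw [mul_zero] at h3
    refine ge_of_tendsto h3 ?_
    filter_upwards [Ioc_mem_nhdsGT hδ₀] with t ht
    exact h1 t ht.1 ht.2
  have h3 := le_antisymm h2 ENNReal.toReal_nonneg
  rw [ENNReal.toReal_eq_zero_iff] at h3
  rcases h3 with h3 | h3
  · exact h3
  · exact absurd h3 (measure_ne_top M _)

theorem ball_bd (M : Measure (ℝ × ℝ)) [IsFiniteMeasure M] (hE : HypE M) :
    ∃ C : ℝ, 0 ≤ C ∧ ∀ r : ℝ, 0 < r → (M {y | ‖y‖ ≤ r}).toReal ≤ C * r := by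
  obtain ⟨C₀, δ₀, hδ₀, h⟩ := hE {1} isCompact_singleton (by norm_num) (by norm_num)
  refine ⟨max (8 * C₀) 0 + 4 * (M univ).toReal / δ₀, by positivity, fun r hr => ?_⟩
  have hS : MeasurableSet {y : ℝ × ℝ | ‖y‖ ≤ r} :=
    (isClosed_Iic.preimage continuous_norm).measurableSet
  have hU : 0 ≤ (M univ).toReal := ENNReal.toReal_nonneg
  by_cases h4 : 4 * r ≤ δ₀
  · have h2 := h 1 rfl (4 * r) (by positivity) h4
    have h3 := tent_ge M 1 (4 * r) (2 * r) (by positivity) (by positivity) _ hS (fun y hy => by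
      rw [mem_setOf_eq, Prod.norm_def, max_le_iff, Real.norm_eq_abs, Real.norm_eq_abs] at hy
      have h5 := abs_add_le y.1 (1 * y.2)
      rw [one_mul] at h5 ⊢
      linarith [hy.1, hy.2])
    have h5 : (2 * r) * (M {y : ℝ × ℝ | ‖y‖ ≤ r}).toReal ≤ (2 * r) * (8 * C₀ * r) := by
      refine (h3.trans h2).trans (le_of_eq ?_)
      ring
    have h6 := le_of_mul_le_mul_left h5 (by positivity)
    refine h6.trans (mul_le_mul_of_nonneg_right ?_ hr.le)
    have h7 : 0 ≤ 4 * (M univ).toReal / δ₀ := by positivity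
    linarith [le_max_left (8 * C₀) 0]
  · rw [not_le] at h4
    have h5 : (M {y : ℝ × ℝ | ‖y‖ ≤ r}).toReal ≤ (M univ).toReal :=
      ENNReal.toReal_mono (measure_ne_top M _) (measure_mono (subset_univ _))
    have h6 : (M univ).toReal ≤ 4 * (M univ).toReal / δ₀ * r := by
      rw [div_mul_eq_mul_div, le_div_iff₀ hδ₀]
      nlinarith
    refine (h5.trans h6).trans (mul_le_mul_of_nonneg_right ?_ hr.le)
    linarith [le_max_right (8 * C₀) 0]

theorem main_bd (M : Measure (ℝ × ℝ)) [IsFiniteMeasure M] (C : ℝ) (hC : 0 ≤ C)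
    (hb : ∀ r : ℝ, 0 < r → (M {y | ‖y‖ ≤ r}).toReal ≤ C * r) (z : ℝ) (hz : 1 / 2 ≤ z) (hz1 : z < 1) :
    ∫⁻ y, ENNReal.ofReal (‖y‖ ^ (-z)) ∂M ≤
      ENNReal.ofReal ((M univ).toReal + C * (z / (1 - z))) := by
  have hz0 : 0 < z := by linarith
  have h1z : 0 < 1 - z := by linarith
  have hU : 0 ≤ (M univ).toReal := ENNReal.toReal_nonneg
  have e1 : ∀ y : ℝ × ℝ, ENNReal.ofReal (‖y‖ ^ (-z)) = ENNReal.ofReal ((‖y‖⁻¹) ^ z) := by
    intro y
    rw [Real.rpow_neg (norm_nonneg _), Real.inv_rpow (norm_nonneg _)]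
  rw [lintegral_congr e1]
  rw [lintegral_rpow_eq_lintegral_meas_lt_mul M (Eventually.of_forall fun y => by positivity)
    (by fun_prop) hz0]
  -- split at `t = 1`
  have hpt1 : ∀ t ∈ Ioc (0 : ℝ) 1, M {a : ℝ × ℝ | t < ‖a‖⁻¹} * ENNReal.ofReal (t ^ (z - 1)) ≤
      ENNReal.ofReal ((M univ).toReal * t ^ (z - 1)) := by
    intro t ht
    rw [ENNReal.ofReal_mul hU, ENNReal.ofReal_toReal (measure_ne_top M _)]
    gcongr
    exact subset_univ _
  have hpt2 : ∀ t ∈ Ioi (1 : ℝ), M {a : ℝ × ℝ | t < ‖a‖⁻¹} * ENNReal.ofReal (t ^ (z - 1)) ≤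
      ENNReal.ofReal (C * t ^ (z - 2)) := by
    intro t ht
    rw [mem_Ioi] at ht
    have ht0 : 0 < t := by linarith
    have h2 : {a : ℝ × ℝ | t < ‖a‖⁻¹} ⊆ {a | ‖a‖ ≤ t⁻¹} := by
      intro a ha
      rw [mem_setOf_eq] at ha ⊢
      rcases eq_or_lt_of_le (norm_nonneg a) with h | h
      · rw [← h]
        positivity
      · rw [le_inv_comm₀ h ht0]
        exact ha.le
    have h3 : M {a : ℝ × ℝ | t < ‖a‖⁻¹} ≤ ENNReal.ofReal (C * t⁻¹) := by
      refine (measure_mono h2).trans ?_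
      rw [← ENNReal.ofReal_toReal (measure_ne_top M {a : ℝ × ℝ | ‖a‖ ≤ t⁻¹})]
      exact ENNReal.ofReal_le_ofReal (hb _ (by positivity))
    have h4 : C * t ^ (z - 2) = C * t⁻¹ * t ^ (z - 1) := by
      rw [show z - 2 = -1 + (z - 1) by ring, Real.rpow_add ht0, Real.rpow_neg_one]
      ring
    rw [h4, ENNReal.ofReal_mul (by positivity)]
    gcongr
  have hsplit : Ioi (0 : ℝ) = Ioc 0 1 ∪ Ioi 1 := (Ioc_union_Ioi_eq_Ioi zero_le_one).symm
  have hI1 : IntervalIntegrable (fun t : ℝ => (M univ).toReal * t ^ (z - 1)) volume 0 1 :=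
    (intervalIntegral.intervalIntegrable_rpow' (by linarith)).const_mul _
  have hI2 : IntegrableOn (fun t : ℝ => C * t ^ (z - 2)) (Ioi 1) :=
    (integrableOn_Ioi_rpow_of_lt (by linarith) zero_lt_one).const_mul _
  have hv1 : ∫ t in Ioc (0 : ℝ) 1, (M univ).toReal * t ^ (z - 1) = (M univ).toReal / z := by
    rw [← intervalIntegral.integral_of_le zero_le_one, intervalIntegral.integral_const_mul,
      integral_rpow (Or.inl (by linarith))]
    simp only [sub_add_cancel, Real.one_rpow]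
    rw [Real.zero_rpow hz0.ne']
    ring
  have hv2 : ∫ t in Ioi (1 : ℝ), C * t ^ (z - 2) = C / (1 - z) := by
    rw [integral_const_mul, integral_Ioi_rpow_of_lt (by linarith) zero_lt_one, Real.one_rpow]
    rw [show z - 2 + 1 = -(1 - z) by ring, div_neg, neg_div, neg_neg]
    ring
  have hs1 : ∫⁻ t in Ioc (0 : ℝ) 1, M {a : ℝ × ℝ | t < ‖a‖⁻¹} * ENNReal.ofReal (t ^ (z - 1)) ≤
      ENNReal.ofReal ((M univ).toReal / z) := by
    refine (setLIntegral_mono' measurableSet_Ioc hpt1).trans ?_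
    rw [← hv1, ofReal_integral_eq_lintegral_ofReal]
    · exact (intervalIntegrable_iff_integrableOn_Ioc_of_le zero_le_one).1 hI1
    · refine (ae_restrict_iff' measurableSet_Ioc).2 (Eventually.of_forall fun t ht => ?_)
      exact mul_nonneg hU (Real.rpow_nonneg ht.1.le _)
  have hs2 : ∫⁻ t in Ioi (1 : ℝ), M {a : ℝ × ℝ | t < ‖a‖⁻¹} * ENNReal.ofReal (t ^ (z - 1)) ≤
      ENNReal.ofReal (C / (1 - z)) := by
    refine (setLIntegral_mono' measurableSet_Ioi hpt2).trans ?_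
    rw [← hv2, ofReal_integral_eq_lintegral_ofReal hI2]
    refine (ae_restrict_iff' measurableSet_Ioi).2 (Eventually.of_forall fun t ht => ?_)
    exact mul_nonneg hC (Real.rpow_nonneg (by linarith [mem_Ioi.1 ht]) _)
  have hs : ∫⁻ t in Ioi (0 : ℝ), M {a : ℝ × ℝ | t < ‖a‖⁻¹} * ENNReal.ofReal (t ^ (z - 1)) ≤
      ENNReal.ofReal ((M univ).toReal / z + C / (1 - z)) := by
    rw [hsplit]
    refine (lintegral_union_le _ _ _).trans ?_
    rw [ENNReal.ofReal_add (by positivity) (by positivity)]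
    exact add_le_add hs1 hs2
  calc ENNReal.ofReal z * ∫⁻ t in Ioi (0 : ℝ), M {a : ℝ × ℝ | t < ‖a‖⁻¹} * ENNReal.ofReal (t ^ (z - 1))
      ≤ ENNReal.ofReal z * ENNReal.ofReal ((M univ).toReal / z + C / (1 - z)) := by gcongr
    _ = ENNReal.ofReal ((M univ).toReal + C * (z / (1 - z))) := by
        rw [← ENNReal.ofReal_mul hz0.le]
        congr 1
        field_simp

theorem t_V6 : S_V6 := by
  intro M hM hE
  refine ⟨?_, fun p h0 h1 => line_null M hE p h0 h1, ?_⟩
  · refine measure_mono_null ?_ (line_null M hE 1 one_ne_zero (by norm_num))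
    intro y hy
    rw [mem_singleton_iff] at hy
    rw [hy]
    simp
  · obtain ⟨C, hC, hb⟩ := ball_bd M hE
    refine ⟨(M univ).toReal + C, fun z hz hz1 => ?_⟩
    have h1 := main_bd M C hC hb z hz hz1
    have h1z : 0 < 1 - z := by linarith
    have hU : 0 ≤ (M univ).toReal := ENNReal.toReal_nonneg
    have hmeas : Measurable (fun y : ℝ × ℝ => ‖y‖ ^ (-z)) := by fun_prop
    have hnn : 0 ≤ᵐ[M] (fun y : ℝ × ℝ => ‖y‖ ^ (-z)) :=
      Eventually.of_forall fun y => Real.rpow_nonneg (norm_nonneg _) _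
    have hi : Integrable (fun y : ℝ × ℝ => ‖y‖ ^ (-z)) M := by
      refine ⟨hmeas.aestronglyMeasurable, ?_⟩
      rw [hasFiniteIntegral_iff_ofReal hnn]
      exact h1.trans_lt ENNReal.ofReal_lt_top
    refine ⟨hi, ?_⟩
    rw [← ofReal_integral_eq_lintegral_ofReal hi hnn] at h1
    have h2 := (ENNReal.ofReal_le_ofReal_iff (by positivity)).1 h1
    calc (1 - z) * (∫ y, ‖y‖ ^ (-z) ∂M) ≤ (1 - z) * ((M univ).toReal + C * (z / (1 - z))) := by gcongr
      _ = (1 - z) * (M univ).toReal + C * z := by field_simp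
      _ ≤ (M univ).toReal + C := by nlinarith

end Pool.Agent.J4H28.PZ
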